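import Pool.Agent.U68.TU.Stm
import Pool.Agent.R396.TL.Tay
import Pool.Agent.R396.TL.Poi
import Pool.Agent.R396.TL.Sum

set_option autoImplicit false

/-!
# Project TU (helper68), part THETA: an even unimodular positive definite lattice of rank 16 has 480 roots
-/

namespace Pool.Agent.U845.TU

open UpperHalfPlane hiding I
open Real EisensteinSeries ModularForm MatrixGroups
open scoped MatrixGroups ModularForm
open Pool.Agent.R396.TL (Uni mom jobSum jobTheta)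
open Pool.Agent.R396.TL.TA (Xs form_Bt)
open Pool.Agent.R396.TL.DE (comb)
open Pool.Agent.R396.XQ.KO (PS PS.unique ps_form)

lemma bf_eq {n : ℕ} (G : Matrix (Fin n) (Fin n) ℤ) (x y : Fin n → ℤ) :
    Pool.Agent.R396.TL.bf G x y = Pool.Agent.U68.TU.bf G x y := rfl

lemma mom_form (G : Matrix (Fin (8 * 2)) (Fin (8 * 2)) ℤ) (hG : Uni G) :
    ∃ f : ModularForm 𝒮ℒ ((8 : ℕ) : ℤ), ∀ k : ℕ, (qExpansion 1 (f : ℍ → ℂ)).coeff k = (mom G 0 0 k : ℂ) := by
  obtain ⟨f, hf⟩ := form_Bt jobSum jobTheta hG 0 0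
  refine ⟨f.mcast (by norm_num), fun k => ?_⟩
  have h1 : PS f (qExpansion 1 (f : ℍ → ℂ)) := ps_form f
  have h2 := PS.unique h1 hf
  show (qExpansion 1 (f : ℍ → ℂ)).coeff k = _
  rw [h2]
  unfold comb Xs
  simp

lemma mom_zero_zero (G : Matrix (Fin (8 * 2)) (Fin (8 * 2)) ℤ) (hG : Uni G) : mom G 0 0 0 = 1 := by
  unfold mom
  rw [tsum_eq_single 0]
  · simp [Pool.Agent.R396.TL.bf]
  · intro x hx
    rw [if_neg]
    intro h
    have hx' : (fun i => (x i : ℝ)) ≠ 0 := by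
      intro h0
      apply hx
      funext i
      have := congrFun h0 i
      simpa using this
    have := hG.pos _ hx'
    have e : Pool.Agent.R396.TL.bfR G (fun i => (x i : ℝ)) (fun i => (x i : ℝ)) =
        ((Pool.Agent.R396.TL.bf G x x : ℤ) : ℝ) := by
      unfold Pool.Agent.R396.TL.bf Pool.Agent.R396.TL.bfR
      push_cast
      rfl
    rw [e, h] at this
    simp at this

lemma E8_coeff_one : (qExpansion 1 (E (by norm_num : 3 ≤ 8) : ModularForm 𝒮ℒ 8)).coeff 1 = 480 := by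
  norm_num [E_qExpansion_coeff _ ⟨4, rfl⟩, show bernoulli 8 = -1 / 30 by decide +kernel]

lemma mom_one (G : Matrix (Fin (8 * 2)) (Fin (8 * 2)) ℤ) (hG : Uni G) : mom G 0 0 1 = 480 := by
  obtain ⟨f, hf⟩ := mom_form G hG
  have h0 : f - (E (by norm_num : 3 ≤ 8) : ModularForm 𝒮ℒ ((8 : ℕ) : ℤ)) = 0 := by
    apply sturm_bound_levelOne_nat
    have h1 : (qExpansion 1 (f - (E (by norm_num : 3 ≤ 8) : ModularForm 𝒮ℒ ((8 : ℕ) : ℤ)) :
        ModularForm 𝒮ℒ ((8 : ℕ) : ℤ))).coeff 0 = 0 := by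
      rw [FunLike.coe_sub, ModularForm.qExpansion_sub, map_sub, hf 0, mom_zero_zero G hG,
        E_qExpansion_coeff_zero _ ⟨4, rfl⟩]
      · simp
      all_goals simp
    have h2 : 1 ≤ (qExpansion 1 (f - (E (by norm_num : 3 ≤ 8) : ModularForm 𝒮ℒ ((8 : ℕ) : ℤ)) :
        ModularForm 𝒮ℒ ((8 : ℕ) : ℤ))).order := by
      refine PowerSeries.le_order _ _ fun i hi => ?_
      have : i = 0 := by
        have : (i : ℕ∞) < 1 := hi
        have : i < 1 := by exact_mod_cast this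
        omega
      rw [this]
      exact h1
    refine lt_of_lt_of_le ?_ h2
    norm_num
  have h3 : f = (E (by norm_num : 3 ≤ 8) : ModularForm 𝒮ℒ ((8 : ℕ) : ℤ)) := sub_eq_zero.mp h0
  have h4 := hf 1
  rw [h3] at h4
  have h5 := E8_coeff_one
  have h6 : ((mom G 0 0 1 : ℝ) : ℂ) = ((480 : ℝ) : ℂ) := by
    rw [← h4]
    push_cast
    exact h5
  exact_mod_cast h6

theorem t_THETA : Pool.Agent.U68.TU.S_THETA := by
  intro G hs hp hd he
  have hG : Uni (n := 8 * 2) G := ⟨hs, hp, hd, he⟩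
  have h1 := mom_one G hG
  unfold mom at h1
  obtain ⟨S, hS⟩ : ∃ S : Set (Fin (8 * 2) → ℤ), S = {x | Pool.Agent.R396.TL.bf G x x = 2} := ⟨_, rfl⟩
  have h2 : (fun x : Fin (8 * 2) → ℤ => if Pool.Agent.R396.TL.bf (n := 8 * 2) G x x = 2 * ((1 : ℕ) : ℤ) then
      ((Pool.Agent.R396.TL.bf (n := 8 * 2) G x 0 : ℤ) : ℝ) ^ 0 else 0) = S.indicator (fun _ => (1 : ℝ)) := by
    funext x
    rw [hS]
    simp [Set.indicator]
  rw [h2] at h1
  rw [← tsum_subtype, tsum_const] at h1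
  have h4 : Nat.card S = 480 := by
    rw [nsmul_eq_mul, mul_one] at h1
    exact_mod_cast h1
  rw [← h4, hS]
  rfl

end Pool.Agent.U845.TU
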